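import Mathlib

/-!
Two digraphs, on 4 and on 6 vertices, with all indegrees and outdegrees equal to n/2 in which any two
directed Hamiltonian cycles have an arc in common.  Each consists of two complete digraphs on n/2
vertices joined by a directed Hamiltonian cycle that alternates between them.
-/

namespace Pool.Agent.Results.MP_fa7ade_co.Disproof

/-- `c` lists, in cyclic order, the vertices of a directed Hamiltonian cycle of the digraph with arc
relation `D`: every vertex occurs exactly once and each vertex sends an arc to the next one. -/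
def IsHamCycle {n : ℕ} (D : Fin n → Fin n → Prop) (c : ZMod n → Fin n) : Prop :=
  Function.Bijective c ∧ ∀ i, D (c i) (c (i + 1))

/-- The two cyclic sequences use a common arc. -/
def ShareArc {n : ℕ} (c c' : ZMod n → Fin n) : Prop :=
  ∃ i j, c i = c' j ∧ c (i + 1) = c' (j + 1)

open Classical in
/-- Outdegree. -/
noncomputable def outdeg {n : ℕ} (D : Fin n → Fin n → Prop) (v : Fin n) : ℕ :=
  (Finset.univ.filter (fun w => D v w)).card

open Classical in
/-- Indegree. -/
noncomputable def indeg {n : ℕ} (D : Fin n → Fin n → Prop) (v : Fin n) : ℕ :=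
  (Finset.univ.filter (fun w => D w v)).card

/-- Bit `j` of entry `i` is set when there is an arc `i → j` (4 vertices). -/
def row4 : Fin 4 → ℕ := ![12, 9, 3, 6]

def D4 : Fin 4 → Fin 4 → Prop := fun i j => (row4 i).testBit j.val = true

instance : DecidableRel D4 := fun _ _ => inferInstanceAs (Decidable (_ = true))

/-- Bit `j` of entry `i` is set when there is an arc `i → j` (6 vertices). -/
def row6 : Fin 6 → ℕ := ![28, 44, 50, 49, 11, 7]

def D6 : Fin 6 → Fin 6 → Prop := fun i j => (row6 i).testBit j.val = true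

instance : DecidableRel D6 := fun _ _ => inferInstanceAs (Decidable (_ = true))

/-- Successor map of the unique Hamiltonian cycle of `D4`. -/
def succ4 : Fin 4 → Fin 4 := ![3, 0, 1, 2]

/-- Successor maps of the four Hamiltonian cycles of `D6`. -/
def succ6 : Fin 4 → Fin 6 → Fin 6 :=
  ![![2, 3, 4, 5, 1, 0], ![2, 3, 5, 4, 0, 1], ![3, 2, 5, 4, 1, 0], ![3, 2, 4, 5, 0, 1]]

theorem enum4 : ∀ a b c d : Fin 4, D4 a b → D4 b c → D4 c d → D4 d a →
    a ≠ c → b ≠ d →
    b = succ4 a ∧ c = succ4 b ∧ d = succ4 c ∧ a = succ4 d := by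
  decide +kernel

set_option synthInstance.maxSize 100000 in
set_option synthInstance.maxHeartbeats 4000000 in
theorem enum6 : ∀ a b : Fin 6, D6 a b → ∀ c, D6 b c → a ≠ c → ∀ d, D6 c d → a ≠ d → b ≠ d →
    ∀ e, D6 d e → a ≠ e → b ≠ e → c ≠ e → ∀ f, D6 e f → D6 f a → b ≠ f → c ≠ f → d ≠ f →
    ∃ k, b = succ6 k a ∧ c = succ6 k b ∧ d = succ6 k c ∧ e = succ6 k d ∧ f = succ6 k e ∧
      a = succ6 k f := by
  decide +kernel

theorem meet6 : ∀ k l : Fin 4, ∃ v, succ6 k v = succ6 l v := by
  decide +kernel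

theorem ham4 {c : ZMod 4 → Fin 4} (h : IsHamCycle D4 c) : ∀ i, c (i + 1) = succ4 (c i) := by
  obtain ⟨⟨hinj, -⟩, hD⟩ := h
  have hne : ∀ i j : ZMod 4, i ≠ j → c i ≠ c j := fun i j hij hc => hij (hinj hc)
  have key := enum4 (c 0) (c 1) (c 2) (c 3) (hD 0) (hD 1) (hD 2) (hD 3)
    (hne 0 2 (by decide)) (hne 1 3 (by decide))
  obtain ⟨k0, k1, k2, k3⟩ := key
  intro i
  change Fin 4 at i
  fin_cases i
  · exact k0
  · exact k1
  · exact k2
  · exact k3

theorem ham6 {c : ZMod 6 → Fin 6} (h : IsHamCycle D6 c) :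
    ∃ k, ∀ i, c (i + 1) = succ6 k (c i) := by
  obtain ⟨⟨hinj, -⟩, hD⟩ := h
  have hne : ∀ i j : ZMod 6, i ≠ j → c i ≠ c j := fun i j hij hc => hij (hinj hc)
  obtain ⟨k, k0, k1, k2, k3, k4, k5⟩ := enum6 (c 0) (c 1) (hD 0) (c 2) (hD 1)
    (hne 0 2 (by decide)) (c 3) (hD 2) (hne 0 3 (by decide)) (hne 1 3 (by decide))
    (c 4) (hD 3) (hne 0 4 (by decide)) (hne 1 4 (by decide)) (hne 2 4 (by decide))
    (c 5) (hD 4) (hD 5) (hne 1 5 (by decide)) (hne 2 5 (by decide)) (hne 3 5 (by decide))
  refine ⟨k, ?_⟩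
  intro i
  change Fin 6 at i
  fin_cases i
  · exact k0
  · exact k1
  · exact k2
  · exact k3
  · exact k4
  · exact k5

/-- For `n = 4` and for `n = 6` there is a loopless digraph on `n` vertices in which every outdegree
and every indegree is at least `n/2`, and any two directed Hamiltonian cycles share an arc. -/
theorem result : ∀ n : ℕ, n = 4 ∨ n = 6 →
    ∃ D : Fin n → Fin n → Prop,
      (∀ v, ¬ D v v) ∧
      (∀ v, (n : ℚ) / 2 ≤ outdeg D v) ∧
      (∀ v, (n : ℚ) / 2 ≤ indeg D v) ∧
      ∀ c c' : ZMod n → Fin n, IsHamCycle D c → IsHamCycle D c' → ShareArc c c' := by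
  rintro n (rfl | rfl)
  · refine ⟨D4, by decide, ?_, ?_, ?_⟩
    · intro v
      have h : ∀ v : Fin 4, (Finset.univ.filter (fun w => D4 v w)).card = 2 := by decide +kernel
      have h2 : outdeg D4 v = 2 := by
        unfold outdeg
        convert h v
      rw [h2]
      norm_num
    · intro v
      have h : ∀ v : Fin 4, (Finset.univ.filter (fun w => D4 w v)).card = 2 := by decide +kernel
      have h2 : indeg D4 v = 2 := by
        unfold indeg
        convert h v
      rw [h2]
      norm_num
    · intro c c' hc hc'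
      obtain ⟨j, hj⟩ := hc'.1.2 (c 0)
      exact ⟨0, j, hj.symm, by rw [ham4 hc, ham4 hc', hj]⟩
  · refine ⟨D6, by decide, ?_, ?_, ?_⟩
    · intro v
      have h : ∀ v : Fin 6, (Finset.univ.filter (fun w => D6 v w)).card = 3 := by decide +kernel
      have h2 : outdeg D6 v = 3 := by
        unfold outdeg
        convert h v
      rw [h2]
      norm_num
    · intro v
      have h : ∀ v : Fin 6, (Finset.univ.filter (fun w => D6 w v)).card = 3 := by decide +kernel
      have h2 : indeg D6 v = 3 := by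
        unfold indeg
        convert h v
      rw [h2]
      norm_num
    · intro c c' hc hc'
      obtain ⟨k, hk⟩ := ham6 hc
      obtain ⟨l, hl⟩ := ham6 hc'
      obtain ⟨v, hv⟩ := meet6 k l
      obtain ⟨i, hi⟩ := hc.1.2 v
      obtain ⟨j, hj⟩ := hc'.1.2 v
      exact ⟨i, j, by rw [hi, hj], by rw [hk, hl, hi, hj, hv]⟩

end Pool.Agent.Results.MP_fa7ade_co.Disproof
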